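import Pool.Agent.Helper42.DB.Goals2

set_option autoImplicit false

namespace Pool.Agent.Helper42.DB.PkCMC

open Pool.Agent.Helper42.DB Set Filter Topology MeasureTheory

lemma ord (S : Sys) (hINTF : G_INTF S) (hFO : G_FANORD S) (hFAN : G_FAN S) {X : ℂ} (hX : X ∈ S.Y)
    (a : ℕ) (f : ℕ → S.ι) {p q : ℝ} (hpq : q - p ≤ 2) (s : ℝ) :
    {l : ℝ | l ∈ Icc p q ∧ ∃ z : ℕ → St S, Cyl a f z ∧ Lnd X (l + s) (z 0) ∧ True}.OrdConnected := by
  constructor
  rintro l0 ⟨hl0, z0, hz0, hL0, -⟩ l1 ⟨hl1, z1, hz1, hL1, -⟩ l hl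
  refine ⟨⟨hl0.1.trans hl.1, hl.2.trans hl1.2⟩, ?_⟩
  rcases eq_or_lt_of_le (hl.1.trans hl.2) with h | h
  · have : l = l0 := le_antisymm (by rw [h]; exact hl.2) hl.1
    rw [this]
    exact ⟨z0, hz0, hL0, trivial⟩
  · have hi : (z0 0).i = (z1 0).i := by rw [hz0.2 0 (Nat.zero_le _), hz1.2 0 (Nat.zero_le _)]
    obtain ⟨kk, hkk, hb0, hb1, hu⟩ := hFO X (l0 + s) (l1 + s) (z0 0) (z1 0) (by linarith)
      (by linarith [hl0.1, hl1.2]) hL0 hL1 hi
    have hpi := Real.pi_gt_d2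
    obtain ⟨y, hy0, hy1, hF, hLy, hyu, hyt⟩ := hFAN X (l0 + s) (l1 + s) kk (z0 0) (z1 0) hX
      (by linarith) (by linarith [hl0.1, hl1.2]) hL0 hL1 hi hkk hb0 hb1 hu
    rw [hz0.2 0 (Nat.zero_le _)] at hF
    obtain ⟨Z, hZ, -, -⟩ := hINTF a f (l0 + s) (l1 + s) y z0 z1 (by linarith) hF
      (Or.inr ⟨hyu.antitoneOn, hyt.antitoneOn, fun u hu' v hv huv => Or.inl (hyu hu' hv huv)⟩)
      hz0 hz1 hy0.symm hy1.symm
    have hmem : l + s ∈ Icc (l0 + s) (l1 + s) := ⟨by linarith [hl.1], by linarith [hl.2]⟩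
    obtain ⟨h1, h2⟩ := hZ _ hmem
    refine ⟨Z (l + s), h1, ?_, trivial⟩
    rw [h2]
    exact hLy _ hmem

lemma cnt_union4 {α : Type} [Finite α] (n : ℕ) (P : (ℕ → α) → Prop) (Q : ℕ → (ℕ → α) → Prop) (B : ℕ)
    (h : ∀ w, P w → ∃ c < 4, Q c w) (hB : ∀ c, cnt n (Q c) ≤ B) : cnt n P ≤ 4 * B := by
  have hsub : res n '' {w | P w} ⊆ (res n '' {w | Q 0 w} ∪ res n '' {w | Q 1 w}) ∪
      (res n '' {w | Q 2 w} ∪ res n '' {w | Q 3 w}) := by
    rintro _ ⟨w, hw, rfl⟩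
    obtain ⟨c, hc, hq⟩ := h w hw
    have hc' : c = 0 ∨ c = 1 ∨ c = 2 ∨ c = 3 := by omega
    rcases hc' with rfl | rfl | rfl | rfl
    · exact Or.inl (Or.inl ⟨w, hq, rfl⟩)
    · exact Or.inl (Or.inr ⟨w, hq, rfl⟩)
    · exact Or.inr (Or.inl ⟨w, hq, rfl⟩)
    · exact Or.inr (Or.inr ⟨w, hq, rfl⟩)
  have h1 := Set.ncard_le_ncard hsub (Set.toFinite _)
  have h2 := Set.ncard_union_le (res n '' {w | Q 0 w} ∪ res n '' {w | Q 1 w})
    (res n '' {w | Q 2 w} ∪ res n '' {w | Q 3 w})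
  have h3 := Set.ncard_union_le (res n '' {w | Q 0 w}) (res n '' {w | Q 1 w})
  have h4 := Set.ncard_union_le (res n '' {w | Q 2 w}) (res n '' {w | Q 3 w})
  have g0 : (res n '' {w | Q 0 w}).ncard ≤ B := hB 0
  have g1 : (res n '' {w | Q 1 w}).ncard ≤ B := hB 1
  have g2 : (res n '' {w | Q 2 w}).ncard ≤ B := hB 2
  have g3 : (res n '' {w | Q 3 w}).ncard ≤ B := hB 3
  show (res n '' {w | P w}).ncard ≤ 4 * B
  omega

lemma exists_angle (θ : ℝ) : ∃ c < 4, ∃ l ∈ Icc ((c : ℕ) * Real.pi / 2 - Real.pi)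
    ((c : ℕ) * Real.pi / 2 - Real.pi + Real.pi / 2), ee θ = ee l := by
  have hpi := Real.pi_pos
  set l := toIcoMod Real.two_pi_pos (-Real.pi) θ with hl
  have hm := toIcoMod_mem_Ico Real.two_pi_pos (-Real.pi) θ
  rw [← hl] at hm
  have he : ee θ = ee l := by
    have h1 := toIcoMod_add_toIcoDiv_zsmul Real.two_pi_pos (-Real.pi) θ
    rw [← hl] at h1
    rw [← h1, ee_eq_ee_iff]
    have : l + toIcoDiv Real.two_pi_pos (-Real.pi) θ • (2 * Real.pi) - l
        = (toIcoDiv Real.two_pi_pos (-Real.pi) θ : ℤ) * (2 * Real.pi) := by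
      rw [zsmul_eq_mul]
      ring
    rw [this]
    exact Real.cos_int_mul_two_pi _
  rcases lt_or_ge l (-(Real.pi / 2)) with h | h
  · exact ⟨0, by norm_num, l, ⟨by push_cast; linarith [hm.1], by push_cast; linarith⟩, he⟩
  · rcases lt_or_ge l 0 with h' | h'
    · exact ⟨1, by norm_num, l, ⟨by push_cast; linarith, by push_cast; linarith⟩, he⟩
    · rcases lt_or_ge l (Real.pi / 2) with h'' | h''
      · exact ⟨2, by norm_num, l, ⟨by push_cast; linarith, by push_cast; linarith⟩, he⟩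
      · exact ⟨3, by norm_num, l, ⟨by push_cast; linarith, by push_cast; linarith [hm.2]⟩, he⟩

theorem thm (S : Sys) : G_INTF S → G_FANORD S → G_FAN S → G_LINEPAIR S → G_CMC S := by
  intro hINTF hFO hFAN hLP a X
  have hpi := Real.pi_pos
  have hpi4 := Real.pi_le_four
  by_cases hX : X ∈ S.Y
  · have key := cnt_union4 (2 * a + 1) (fun w : ℕ → S.ι => ∃ z : ℕ → St S, Cyl (2 * a + 1) w z ∧
      X ∈ openSegment ℝ (z a).pos (z (a + 1)).pos)
      (fun c w => ∃ l ∈ Icc ((c : ℕ) * Real.pi / 2 - Real.pi)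
        ((c : ℕ) * Real.pi / 2 - Real.pi + Real.pi / 2), ∃ z : ℕ → St S, Cyl (2 * a + 1) w z ∧
        X ∈ openSegment ℝ (z a).pos (z (a + 1)).pos ∧ ee (z a).th = ee l ∧ True ∧ True)
      (2 * AW S a) ?_ ?_
    · refine key.trans (le_of_eq ?_)
      ring
    · rintro w ⟨z, hz, hseg⟩
      obtain ⟨c, hc, l, hl, he⟩ := exists_angle (z a).th
      exact ⟨c, hc, l, hl, z, hz, hseg, he, trivial, trivial⟩
    · intro c
      have h := hLP a (fun _ => X) (fun l => l) (Icc ((c : ℕ) * Real.pi / 2 - Real.pi)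
        ((c : ℕ) * Real.pi / 2 - Real.pi + Real.pi / 2)) (fun _ => True) (fun _ => True)
        (fun f => by
          have := ord S hINTF hFO hFAN hX a f (p := (c : ℕ) * Real.pi / 2 - Real.pi)
            (q := (c : ℕ) * Real.pi / 2 - Real.pi + Real.pi / 2) (by linarith) 0
          simpa only [add_zero] using this)
        (fun f => ord S hINTF hFO hFAN hX a f (by linarith) Real.pi)
      exact h
  · have hempty : {w : ℕ → S.ι | ∃ z : ℕ → St S, Cyl (2 * a + 1) w z ∧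
        X ∈ openSegment ℝ (z a).pos (z (a + 1)).pos} = ∅ := by
      ext w
      simp only [mem_ofPred_eq, mem_empty_iff_false, iff_false]
      rintro ⟨z, hz, hseg⟩
      obtain ⟨_, _, _, t, ht, hp, hY⟩ := hz.1.2 a (by omega)
      rw [openSegment_eq_image] at hseg
      obtain ⟨θ, hθ, rfl⟩ := hseg
      apply hX
      have e : (1 - θ) • (z a).pos + θ • (z (a + 1)).pos = (z a).pos + (θ * t) • ee (z a).th := by
        rw [hp, smul_add, smul_smul, sub_smul, one_smul]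
        ring
      simp only [e]
      exact hY _ ⟨mul_pos hθ.1 ht, by nlinarith [hθ.2]⟩
    unfold cnt
    rw [hempty, image_empty, ncard_empty]
    exact Nat.zero_le _

end Pool.Agent.Helper42.DB.PkCMC
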