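import Mathlib
import Pool.Agent.Helper42.DB.Goals2

set_option autoImplicit false

/-!
# Dispersing billiards (MP_48f005_an): packet FAN (helper60)
-/

namespace Pool.Agent.Helper42.DB.PkFAN

open Set Filter Topology

/-- The constant curve. -/
noncomputable def cst (X : ℂ) : Crv where
  G := fun _ => X
  R := fun _ => 0
  cont := continuous_const
  nonneg := fun _ => le_refl 0
  der := fun u => by
    rw [zero_smul]
    exact hasDerivAt_const u X

lemma ee_kk {θ kk : ℝ} (hkk : Real.cos kk = -1) : ee θ = -ee (θ + kk) := by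
  have hs : Real.sin kk = 0 := by
    have h := Real.sin_sq_add_cos_sq kk
    rw [hkk] at h
    have : Real.sin kk ^ 2 = 0 := by linarith
    exact pow_eq_zero_iff (two_ne_zero) |>.mp this
  apply Complex.ext
  · simp [Real.cos_add, hkk, hs]
  · simp [Real.sin_add, hkk, hs]

theorem thm (S : Sys) : G_FANLAND S → G_SIDE → G_QOPEN → G_CORE S → G_FAN S := by
  intro hFL hSD hQO hCO X θ0 θ1 kk y0 y1 hX hθ hθpi hL0 hL1 hi hkk hb0 hb1 hu
  obtain ⟨hok0, hee0, T0, hT0, hp0, hs0⟩ := hL0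
  obtain ⟨hok1, hee1, T1, hT1, hp1, hs1⟩ := hL1
  have hturn := S.turn y0.i
  have hu0 := hok0.1
  have hu1 : y1.u ∈ Ioo (S.a y0.i) (S.b y0.i) := by rw [hi]; exact hok1.1
  have hp1' : S.g y0.i y1.u = X + T1 • ee θ1 := by
    rw [hi]; exact hp1
  obtain ⟨μ, T, hμ0, hμ1, hTT0, hTT1, hμc, hTc, hμa, hall⟩ :=
    hFL X y0.i θ0 θ1 kk y0.u y1.u T0 T1 hθ hθpi hkk hu
      (by linarith [hu0.2, hu1.1]) hT0 hT1 hp0 hp1'
      (by
        rw [← hb0]
        have : y0.bk - y0.u = -y0.φ := by simp [St.bk]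
        rw [this, abs_neg]; exact hok0.2)
      (by
        rw [← hb1]
        have : y1.bk - y1.u = -y1.φ := by simp [St.bk]
        rw [this, abs_neg]; exact hok1.2)
  have hSide : Side θ0 θ1 (fun _ => X) (fun l => l) := by
    have := hSD (cst X) θ0 θ1 (fun l => l) (fun l => l) hθ
      ⟨continuousOn_id, continuousOn_id, monotoneOn_id, monotoneOn_id⟩
      (Or.inl strictMonoOn_id)
      (fun l _ => by rw [sub_self, abs_zero]; exact (half_pos Real.pi_pos).le)
    exact this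
  have hOpen : IsOpen (Swept θ0 θ1 (fun _ => X) (fun l => l) T) :=
    hQO θ0 θ1 (fun _ => X) (fun l => l) T hθ continuousOn_const continuousOn_id hTc hSide
  have h0mem : θ0 ∈ Icc θ0 θ1 := ⟨le_refl _, hθ.le⟩
  have h1mem : θ1 ∈ Icc θ0 θ1 := ⟨hθ.le, le_refl _⟩
  have hμI : ∀ l ∈ Icc θ0 θ1, μ l ∈ Ioo (S.a y0.i) (S.b y0.i) := by
    intro l hl
    have hanti := hμa.antitoneOn
    have h1 : μ l ≤ μ θ0 := hanti h0mem hl hl.1
    have h2 : μ θ1 ≤ μ l := hanti hl h1mem hl.2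
    rw [hμ0] at h1
    rw [hμ1] at h2
    exact ⟨lt_of_lt_of_le hu1.1 h2, lt_of_le_of_lt h1 hu0.2⟩
  have hcore := hCO y0.i θ0 θ1 (fun _ => X) (fun l => l) T μ kk hθ continuousOn_const
    continuousOn_id hTc hμc hOpen hkk
    (fun l hl => ⟨(hall l hl).1, hμI l hl, (hall l hl).2.1, (hall l hl).2.2⟩)
    (by rw [hTT0]; exact hs0)
    (by rw [hTT1]; exact hs1)
    (Or.inl fun l _ => hX)
    ⟨X, fun l _ => by rw [dist_self]; linarith [S.ρ_pos]⟩
  refine ⟨fun θ => ⟨y0.i, μ θ, μ θ - (θ + kk)⟩, ?_, ?_, ?_, ?_, ?_, ?_⟩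
  · apply St.ext
    · rfl
    · exact hμ0
    · show μ θ0 - (θ0 + kk) = y0.φ
      rw [hμ0, ← hb0]; simp [St.bk]
  · apply St.ext
    · exact hi
    · exact hμ1
    · show μ θ1 - (θ1 + kk) = y1.φ
      rw [hμ1, ← hb1]; simp [St.bk]
  · refine ⟨fun l _ => rfl, fun l hl => ⟨hμI l hl, ?_⟩, hμc, ?_⟩
    · show |μ l - (l + kk)| < Real.pi / 2
      rw [abs_sub_comm]
      exact (hall l hl).2.2
    · exact hμc.sub (continuousOn_id.add continuousOn_const)
  · intro θ hθm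
    refine ⟨⟨hμI θ hθm, ?_⟩, ?_, T θ, (hall θ hθm).1, (hall θ hθm).2.1, hcore θ hθm⟩
    · show |μ θ - (θ + kk)| < Real.pi / 2
      rw [abs_sub_comm]
      exact (hall θ hθm).2.2
    · have : St.bk (S := S) ⟨y0.i, μ θ, μ θ - (θ + kk)⟩ = θ + kk := by
        simp [St.bk]
      rw [this]
      exact ee_kk hkk
  · exact hμa
  · intro l hl l' hl' hll
    have := hμa hl hl' hll
    show μ l' + (μ l' - (l' + kk)) < μ l + (μ l - (l + kk))
    linarith

end Pool.Agent.Helper42.DB.PkFAN
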