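import Pool.Agent.Helper42.DB.Goals2

set_option autoImplicit false

namespace Pool.Agent.Helper42.DB.PkFANORD

open Pool.Agent.Helper42.DB Set Filter Topology MeasureTheory

/-- `ee a = -ee b` gives `cos (b - a) = -1` -/
lemma cos_of_neg {a b : ℝ} (h : ee a = -ee b) : Real.cos (b - a) = -1 := by
  have h1 : dt (ee a) (ee b) = -1 := by
    rw [h, dt_neg_left, dt_self, norm_ee]
    norm_num
  rwa [dt_ee_ee] at h1

lemma exists_pos (c : Crv) {u v θ : ℝ} (huv : u ≤ v) (h : 0 < ∫ t in u..v, c.R t * Real.cos (t - θ)) :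
    ∃ t ∈ Icc u v, 0 < Real.cos (t - θ) := by
  by_contra hcon
  push Not at hcon
  have h1 : 0 ≤ ∫ t in u..v, -(c.R t * Real.cos (t - θ)) := by
    apply intervalIntegral.integral_nonneg huv
    intro t ht
    have := mul_nonneg (c.nonneg t) (neg_nonneg.2 (hcon t ht))
    linarith
  rw [intervalIntegral.integral_neg] at h1
  linarith

theorem thm (S : Sys) : G_CRV → G_FANORD S := by
  intro hCRV X θ0 θ1 y0 y1 hlt h2 h0 h1 hi
  obtain ⟨hok0, he0, T0, hT0, hp0, -⟩ := h0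
  obtain ⟨hok1, he1, T1, hT1, hp1, -⟩ := h1
  have hpi := Real.pi_gt_d2
  have ha1 : S.a y1.i = S.a y0.i := by rw [hi]
  have hb1 : S.b y1.i = S.b y0.i := by rw [hi]
  have hm0 := hok0.1
  have hm1 := hok1.1
  rw [ha1, hb1] at hm1
  have hturn := S.turn y0.i
  have hφ0 := abs_lt.1 hok0.2
  have hφ1 := abs_lt.1 hok1.2
  have hc0 : Real.cos (y0.bk - θ0) = -1 := cos_of_neg he0
  have hc1 : Real.cos (y1.bk - θ1) = -1 := cos_of_neg he1
  have hs : ∀ x : ℝ, Real.cos x = -1 → Real.sin x = 0 := by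
    intro x hx
    have := Real.sin_sq_add_cos_sq x
    rw [hx] at this
    have h3 : Real.sin x ^ 2 = 0 := by linarith
    exact pow_eq_zero_iff (two_ne_zero) |>.1 h3
  have hs0 := hs _ hc0
  have hs1 := hs _ hc1
  have hbk0 : y0.bk = y0.u - y0.φ := rfl
  have hbk1 : y1.bk = y1.u - y1.φ := rfl
  have hkk : (y0.bk - θ0) - (y1.bk - θ1) = 0 := by
    rw [← Real.cos_eq_one_iff_of_lt_of_lt]
    · rw [Real.cos_sub, hc0, hc1, hs0, hs1]
      norm_num
    · rw [hbk0, hbk1]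
      linarith [hm0.1, hm0.2, hm1.1, hm1.2, hφ0.1, hφ0.2, hφ1.1, hφ1.2]
    · rw [hbk0, hbk1]
      linarith [hm0.1, hm0.2, hm1.1, hm1.2, hφ0.1, hφ0.2, hφ1.1, hφ1.2]
  have hcos0 : ∀ t, Real.cos (t - θ0) = -Real.cos (t - y0.bk) := by
    intro t
    have : t - θ0 = (t - y0.bk) + (y0.bk - θ0) := by ring
    rw [this, Real.cos_add, hc0, hs0]
    ring
  have hcos1 : ∀ t, Real.cos (t - θ1) = -Real.cos (t - y1.bk) := by
    intro t
    have : t - θ1 = (t - y1.bk) + (y1.bk - θ1) := by ring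
    rw [this, Real.cos_add, hc1, hs1]
    ring
  refine ⟨y0.bk - θ0, hc0, by ring, by linarith, ?_⟩
  by_contra hcon
  push Not at hcon
  have hsin : 0 < Real.sin (θ1 - θ0) := Real.sin_pos_of_pos_of_lt_pi (by linarith) (by linarith)
  have hdiff : (S.crv y0.i).G y1.u - (S.crv y0.i).G y0.u = T1 • ee θ1 - T0 • ee θ0 := by
    have e0 : (S.crv y0.i).G y0.u = X + T0 • ee θ0 := hp0
    have e1 : (S.crv y0.i).G y1.u = X + T1 • ee θ1 := by
      have : y1.pos = (S.crv y1.i).G y1.u := rfl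
      rw [hi, ← this, hp1]
    rw [e0, e1]
    ring
  have hA := (hCRV (S.crv y0.i) θ0 y0.u y1.u).1
  have hB := (hCRV (S.crv y0.i) θ1 y0.u y1.u).1
  rw [hdiff, cr_sub_right, cr_smul_right, cr_smul_right, cr_ee_ee, cr_ee_ee, sub_self, Real.sin_zero,
    mul_zero, sub_zero] at hA
  rw [hdiff, cr_sub_right, cr_smul_right, cr_smul_right, cr_ee_ee, cr_ee_ee, sub_self, Real.sin_zero,
    mul_zero, zero_sub] at hB
  have hsin' : Real.sin (θ0 - θ1) = -Real.sin (θ1 - θ0) := by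
    rw [← Real.sin_neg]
    congr 1
    ring
  have hA' : 0 < ∫ t in y0.u..y1.u, (S.crv y0.i).R t * Real.cos (t - θ0) := by
    rw [← hA]
    positivity
  have hB' : 0 < ∫ t in y0.u..y1.u, (S.crv y0.i).R t * Real.cos (t - θ1) := by
    rw [← hB, hsin']
    have := mul_pos hT0 hsin
    linarith
  obtain ⟨t, ht, htc⟩ := exists_pos _ hcon hA'
  obtain ⟨t', ht', htc'⟩ := exists_pos _ hcon hB'
  rw [hcos0] at htc
  rw [hcos1] at htc'
  have k1 : Real.pi / 2 < t - y0.bk := by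
    by_contra hh
    push Not at hh
    have := Real.cos_nonneg_of_neg_pi_div_two_le_of_le
      (show -(Real.pi / 2) ≤ t - y0.bk by rw [hbk0]; linarith [ht.1, hφ0.1]) hh
    linarith
  have k2 : t' - y1.bk < -(Real.pi / 2) := by
    by_contra hh
    push Not at hh
    have := Real.cos_nonneg_of_neg_pi_div_two_le_of_le hh
      (show t' - y1.bk ≤ Real.pi / 2 by rw [hbk1]; linarith [ht'.2, hφ1.2])
    linarith
  rw [hbk0] at k1
  rw [hbk1] at k2
  rw [hbk0, hbk1] at hkk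
  linarith [ht.1, ht.2, ht'.1, ht'.2, hm0.1, hm0.2, hm1.1, hm1.2]

end Pool.Agent.Helper42.DB.PkFANORD
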